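import Pool.Agent.Helper76.P13.StD
import Pool.Agent.Helper84.P13.D1

/-!
# Project P13, module RLL: the relations as operators

Models: `Pool/Agent/Helper16/P11/M_Rll.lean`, `Pool/Agent/Helper26/T53/M_Rll.lean`.
-/

set_option autoImplicit false

namespace Pool.Agent.Helper26.P13L

open Pool.Agent.Helper76.P13D Pool.Agent.Helper84.P13 Pool.Agent.Helper28.P13
open Pool.Agent.Helper2.P13 (kP Rel13)

/-- RLL: the relations as operators. -/
theorem hRll : TRll := by
  intro r s F hF ρ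
  obtain ⟨h0, h1, h2, h3⟩ := hF
  have i0 := fun i => (trm (ZMod 13) r s (F i)).2.1
  have c1 : tr13 10 (-7) 1 (-9) (tr13 1 1 0 1 (F 0)) = tr13 10 3 1 4 (F 0) := by
    rw [(trm (ZMod 13) r s (F 0)).1 10 (-7) 1 (-9) 1 1 0 1 (by decide) (by decide) (by decide)
      (by decide)]
    norm_num
  have c2 : tr13 9 (-7) 1 (-10) (tr13 1 1 0 1 (F 0)) = tr13 9 2 1 3 (F 0) := by
    rw [(trm (ZMod 13) r s (F 0)).1 9 (-7) 1 (-10) 1 1 0 1 (by decide) (by decide) (by decide)
      (by decide)]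
    norm_num
  have hop : ∀ (a b c d : ℤ) (G : Fn13 (13 ^ r) (13 ^ s)) (x : ZMod (13 ^ r)) (y : ZMod (13 ^ s)),
      op13 a b c d G x y = tr13 a b c d G x y := fun _ _ _ _ _ _ _ => rfl
  funext x y
  have g0 := h0 x y
  have g1 := h1 x y
  have g2 := h2 x y
  have g3 : (F 0 x y - tr13 1 1 0 1 (F 0) x y - F 1 x y - F 2 x y - F 3 x y) +
      (tr13 10 (-7) 1 (-9) (F 0) x y - tr13 10 (-7) 1 (-9) (tr13 1 1 0 1 (F 0)) x y -
        tr13 10 (-7) 1 (-9) (F 1) x y - tr13 10 (-7) 1 (-9) (F 2) x y -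
        tr13 10 (-7) 1 (-9) (F 3) x y) +
      (tr13 9 (-7) 1 (-10) (F 0) x y - tr13 9 (-7) 1 (-10) (tr13 1 1 0 1 (F 0)) x y -
        tr13 9 (-7) 1 (-10) (F 1) x y - tr13 9 (-7) 1 (-10) (F 2) x y -
        tr13 9 (-7) 1 (-10) (F 3) x y) = 0 := h3 x y
  rw [c1, c2] at g3
  rw [Fin.sum_univ_four]
  fin_cases ρ
  · simp [relM, opL, hop, i0]
    linear_combination g0
  · simp [relM, opL, hop, i0]
    linear_combination g1
  · simp [relM, opL, hop, i0]
    linear_combination g2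
  · simp [relM, opL, hop, i0]
    linear_combination g3

end Pool.Agent.Helper26.P13L
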